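import Pool.Agent.Q279.SN.Stm

/-! Project SN: the neighbours in the composite graph (helper222). -/

set_option autoImplicit false

namespace Pool.Agent.Q222.SN

open Pool.Agent.Q279.SN

variable {P : Piece}

theorem adj_iff {v w : CV (three P)} :
    (comp (three P)).Adj v w ↔ v ≠ w ∧ (CE (three P) v w ∨ CE (three P) w v) := by
  rw [comp, SimpleGraph.fromRel_adj]

theorem adj_hh {i j : Fin 3} {v w : P.V} {hx hy hx' hy'} :
    (comp (three P)).Adj (.h i v hx hy) (.h j w hx' hy') ↔ i = j ∧ P.G.Adj v w := by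
  rw [adj_iff]
  constructor
  · rintro ⟨-, h | h⟩
    · cases h with
      | inner _ _ _ _ _ _ _ h => exact ⟨rfl, h⟩
    · cases h with
      | inner _ _ _ _ _ _ _ h => exact ⟨rfl, h.symm⟩
  · rintro ⟨rfl, h⟩
    refine ⟨?_, Or.inl (CE.inner (P := three P) i v w hx hy hx' hy' h)⟩
    intro h2
    have : v = w := by simpa using h2
    exact h.ne this

theorem adj_ha {i j : Fin 3} {v : P.V} {hx hy} :
    (comp (three P)).Adj (.h i v hx hy) (.a j) ↔ (i = j + 1 ∧ v = P.x0) ∨ (i = j - 1 ∧ v = P.y0) := by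
  rw [adj_iff]
  constructor
  · rintro ⟨-, h | h⟩
    · cases h
    · cases h with
      | ax => exact Or.inl ⟨rfl, rfl⟩
      | ay => exact Or.inr ⟨rfl, rfl⟩
  · rintro (⟨rfl, rfl⟩ | ⟨rfl, rfl⟩)
    · exact ⟨by simp, Or.inr (CE.ax j)⟩
    · exact ⟨by simp, Or.inr (CE.ay j)⟩

theorem adj_hb {i j : Fin 3} {v : P.V} {hx hy} :
    (comp (three P)).Adj (.h i v hx hy) (.b j) ↔ (i = j + 1 ∧ v = P.x1) ∨ (i = j - 1 ∧ v = P.y1) := by
  rw [adj_iff]
  constructor
  · rintro ⟨-, h | h⟩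
    · cases h
    · cases h with
      | bx => exact Or.inl ⟨rfl, rfl⟩
      | by1 => exact Or.inr ⟨rfl, rfl⟩
  · rintro (⟨rfl, rfl⟩ | ⟨rfl, rfl⟩)
    · exact ⟨by simp, Or.inr (CE.bx j)⟩
    · exact ⟨by simp, Or.inr (CE.by1 j)⟩

theorem adj_hc {i j : Fin 3} {v : P.V} {hx hy} :
    ¬ (comp (three P)).Adj (.h i v hx hy) (.c j) := by
  rw [adj_iff]
  rintro ⟨-, h | h⟩ <;> cases h

theorem adj_hu {i : Fin 3} {v : P.V} {hx hy} :
    ¬ (comp (three P)).Adj (.h i v hx hy) .u := by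
  rw [adj_iff]
  rintro ⟨-, h | h⟩ <;> cases h

theorem adj_ah {i j : Fin 3} {v : P.V} {hx hy} :
    (comp (three P)).Adj (.a j) (.h i v hx hy) ↔ (i = j + 1 ∧ v = P.x0) ∨ (i = j - 1 ∧ v = P.y0) := by
  rw [SimpleGraph.adj_comm, adj_ha]

theorem adj_bh {i j : Fin 3} {v : P.V} {hx hy} :
    (comp (three P)).Adj (.b j) (.h i v hx hy) ↔ (i = j + 1 ∧ v = P.x1) ∨ (i = j - 1 ∧ v = P.y1) := by
  rw [SimpleGraph.adj_comm, adj_hb]

theorem adj_ch {i j : Fin 3} {v : P.V} {hx hy} :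
    ¬ (comp (three P)).Adj (.c j) (.h i v hx hy) := by
  rw [SimpleGraph.adj_comm]; exact adj_hc

theorem adj_uh {i : Fin 3} {v : P.V} {hx hy} :
    ¬ (comp (three P)).Adj .u (.h i v hx hy) := by
  rw [SimpleGraph.adj_comm]; exact adj_hu

theorem adj_aa {i j : Fin 3} : ¬ (comp (three P)).Adj (.a i) (.a j) := by
  rw [adj_iff]
  rintro ⟨-, h | h⟩ <;> cases h

theorem adj_ab {i j : Fin 3} : ¬ (comp (three P)).Adj (.a i) (.b j) := by
  rw [adj_iff]
  rintro ⟨-, h | h⟩ <;> cases h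

theorem adj_ba {i j : Fin 3} : ¬ (comp (three P)).Adj (.b i) (.a j) := by
  rw [SimpleGraph.adj_comm]; exact adj_ab

theorem adj_bb {i j : Fin 3} : ¬ (comp (three P)).Adj (.b i) (.b j) := by
  rw [adj_iff]
  rintro ⟨-, h | h⟩ <;> cases h

theorem adj_ac {i j : Fin 3} : (comp (three P)).Adj (.a i) (.c j) ↔ i = j := by
  rw [adj_iff]
  constructor
  · rintro ⟨-, h | h⟩
    · cases h
    · cases h; rfl
  · rintro rfl
    exact ⟨by simp, Or.inr (CE.ca i)⟩

theorem adj_ca {i j : Fin 3} : (comp (three P)).Adj (.c i) (.a j) ↔ i = j := by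
  rw [SimpleGraph.adj_comm, adj_ac, eq_comm]

theorem adj_bc {i j : Fin 3} : (comp (three P)).Adj (.b i) (.c j) ↔ i = j := by
  rw [adj_iff]
  constructor
  · rintro ⟨-, h | h⟩
    · cases h
    · cases h; rfl
  · rintro rfl
    exact ⟨by simp, Or.inr (CE.cb i)⟩

theorem adj_cb {i j : Fin 3} : (comp (three P)).Adj (.c i) (.b j) ↔ i = j := by
  rw [SimpleGraph.adj_comm, adj_bc, eq_comm]

theorem adj_au {i : Fin 3} : ¬ (comp (three P)).Adj (.a i) .u := by
  rw [adj_iff]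
  rintro ⟨-, h | h⟩ <;> cases h

theorem adj_ua {i : Fin 3} : ¬ (comp (three P)).Adj .u (.a i) := by
  rw [SimpleGraph.adj_comm]; exact adj_au

theorem adj_bu {i : Fin 3} : ¬ (comp (three P)).Adj (.b i) .u := by
  rw [adj_iff]
  rintro ⟨-, h | h⟩ <;> cases h

theorem adj_ub {i : Fin 3} : ¬ (comp (three P)).Adj .u (.b i) := by
  rw [SimpleGraph.adj_comm]; exact adj_bu

theorem adj_cc {i j : Fin 3} : ¬ (comp (three P)).Adj (.c i) (.c j) := by
  rw [adj_iff]
  rintro ⟨-, h | h⟩ <;> cases h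

theorem adj_cu {i : Fin 3} : (comp (three P)).Adj (.c i) .u := by
  rw [adj_iff]
  exact ⟨by simp, Or.inl (CE.cu i)⟩

theorem adj_uc {i : Fin 3} : (comp (three P)).Adj .u (.c i) := by
  rw [SimpleGraph.adj_comm]; exact adj_cu

theorem adj_uu : ¬ (comp (three P)).Adj .u .u := SimpleGraph.irrefl _

/-! ### neighbours in the piece -/

theorem nbr3_of_cubic {V : Type} {G : SimpleGraph V} (h : Cubic G) (v : V) :
    ∃ w1 w2 w3, Nbr3 G v w1 w2 w3 := by
  obtain ⟨w1, w2, w3, h1, h2, h3, he⟩ := Set.ncard_eq_three.1 (h v)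
  refine ⟨w1, w2, w3, h1, h2, h3, fun w => ?_⟩
  rw [← SimpleGraph.mem_neighborSet, he]
  simp

theorem cubic_of_nbr3 {V : Type} {G : SimpleGraph V} (h : ∀ v, ∃ w1 w2 w3, Nbr3 G v w1 w2 w3) :
    Cubic G := by
  intro v
  obtain ⟨w1, w2, w3, h1, h2, h3, he⟩ := h v
  rw [Set.ncard_eq_three]
  refine ⟨w1, w2, w3, h1, h2, h3, ?_⟩
  ext w
  rw [SimpleGraph.mem_neighborSet, he]
  simp

/-- three distinct neighbours in a cubic graph are all the neighbours -/
theorem nbr3_mk {V : Type} {G : SimpleGraph V} (h : Cubic G) {v w1 w2 w3 : V} (h1 : w1 ≠ w2)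
    (h2 : w1 ≠ w3) (h3 : w2 ≠ w3) (a1 : G.Adj v w1) (a2 : G.Adj v w2) (a3 : G.Adj v w3) :
    Nbr3 G v w1 w2 w3 := by
  refine ⟨h1, h2, h3, fun w => ?_⟩
  have hc : ({w1, w2, w3} : Set V).ncard = 3 := Set.ncard_eq_three.2 ⟨w1, w2, w3, h1, h2, h3, rfl⟩
  have hf : (G.neighborSet v).Finite := Set.finite_of_ncard_ne_zero (by rw [h v]; norm_num)
  have he : ({w1, w2, w3} : Set V) = G.neighborSet v := by
    apply Set.eq_of_subset_of_ncard_le _ _ hf
    · rintro w (rfl | rfl | rfl)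
      · exact a1
      · exact a2
      · exact a3
    · rw [h v, hc]
  rw [← SimpleGraph.mem_neighborSet, ← he]
  simp

theorem nbr_x (hc : Cubic P.G) : Nbr3 P.G P.x P.y P.x0 P.x1 :=
  nbr3_mk hc P.hx0y.symm P.hx1y.symm P.hx01 P.hxy P.hx0 P.hx1

theorem nbr_y (hc : Cubic P.G) : Nbr3 P.G P.y P.x P.y0 P.y1 :=
  nbr3_mk hc P.hy0x.symm P.hy1x.symm P.hy01 P.hxy.symm P.hy0 P.hy1

/-- no vertex is adjacent to both ends -/
theorem no_common (hn : NoShort P.G) {v : P.V} (h1 : P.G.Adj v P.x) (h2 : P.G.Adj v P.y) : False :=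
  hn.1 P.x v P.y h1.symm h2 P.hxy

theorem x0y0 (hn : NoShort P.G) : P.x0 ≠ P.y0 := fun h =>
  no_common hn P.hx0.symm (h ▸ P.hy0.symm)

theorem x0y1 (hn : NoShort P.G) : P.x0 ≠ P.y1 := fun h =>
  no_common hn P.hx0.symm (h ▸ P.hy1.symm)

theorem x1y0 (hn : NoShort P.G) : P.x1 ≠ P.y0 := fun h =>
  no_common hn P.hx1.symm (h ▸ P.hy0.symm)

theorem x1y1 (hn : NoShort P.G) : P.x1 ≠ P.y1 := fun h =>
  no_common hn P.hx1.symm (h ▸ P.hy1.symm)

open Classical in
/-- the neighbour of `h i v` corresponding to the neighbour `w` of `v` -/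
noncomputable def ff (P : Piece) (i : Fin 3) (v w : P.V) : CV (three P) :=
  if hx : w = P.x then (if v = P.x0 then .a (i - 1) else .b (i - 1))
  else if hy : w = P.y then (if v = P.y0 then .a (i + 1) else .b (i + 1))
  else .h i w hx hy

theorem ff_x0 (i : Fin 3) : ff P i P.x0 P.x = .a (i - 1) := by
  unfold ff
  rw [dif_pos rfl, if_pos rfl]

theorem ff_x1 (i : Fin 3) : ff P i P.x1 P.x = .b (i - 1) := by
  unfold ff
  rw [dif_pos rfl, if_neg P.hx01.symm]

theorem ff_y0 (i : Fin 3) : ff P i P.y0 P.y = .a (i + 1) := by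
  unfold ff
  rw [dif_neg P.hxy.ne', dif_pos rfl, if_pos rfl]

theorem ff_y1 (i : Fin 3) : ff P i P.y1 P.y = .b (i + 1) := by
  unfold ff
  rw [dif_neg P.hxy.ne', dif_pos rfl, if_neg P.hy01.symm]

theorem ff_h (i : Fin 3) (v w : P.V) (hx : w ≠ P.x) (hy : w ≠ P.y) : ff P i v w = .h i w hx hy := by
  unfold ff
  rw [dif_neg hx, dif_neg hy]

/-- the neighbours of `h i v` -/
theorem adj_ff (hc : Cubic P.G) {i : Fin 3} {v : P.V} {hx hy} (z : CV (three P)) :
    (comp (three P)).Adj (.h i v hx hy) z ↔ ∃ w, P.G.Adj v w ∧ z = ff P i v w := by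
  constructor
  · intro h
    cases z with
    | h j w hx' hy' =>
      obtain ⟨rfl, h⟩ := adj_hh.1 h
      exact ⟨w, h, (ff_h i v w hx' hy').symm⟩
    | a j =>
      rcases adj_ha.1 h with ⟨rfl, rfl⟩ | ⟨rfl, rfl⟩
      · exact ⟨P.x, P.hx0.symm, by rw [ff_x0, add_sub_cancel_right]⟩
      · exact ⟨P.y, P.hy0.symm, by rw [ff_y0, sub_add_cancel]⟩
    | b j =>
      rcases adj_hb.1 h with ⟨rfl, rfl⟩ | ⟨rfl, rfl⟩
      · exact ⟨P.x, P.hx1.symm, by rw [ff_x1, add_sub_cancel_right]⟩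
      · exact ⟨P.y, P.hy1.symm, by rw [ff_y1, sub_add_cancel]⟩
    | c j => exact absurd h adj_hc
    | u => exact absurd h adj_hu
  · rintro ⟨w, h, rfl⟩
    by_cases hwx : w = P.x
    · subst hwx
      rcases ((nbr_x hc).2.2.2 v).1 h.symm with rfl | rfl | rfl
      · exact absurd rfl hy
      · rw [ff_x0, adj_ha]
        exact Or.inl ⟨by rw [sub_add_cancel], rfl⟩
      · rw [ff_x1, adj_hb]
        exact Or.inl ⟨by rw [sub_add_cancel], rfl⟩
    · by_cases hwy : w = P.y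
      · subst hwy
        rcases ((nbr_y hc).2.2.2 v).1 h.symm with rfl | rfl | rfl
        · exact absurd rfl hx
        · rw [ff_y0, adj_ha]
          exact Or.inr ⟨by rw [add_sub_cancel_right], rfl⟩
        · rw [ff_y1, adj_hb]
          exact Or.inr ⟨by rw [add_sub_cancel_right], rfl⟩
      · rw [ff_h i v w hwx hwy, adj_hh]
        exact ⟨rfl, h⟩

/-- injectivity on the neighbours -/
theorem ff_inj (hn : NoShort P.G) {i : Fin 3} {v w w' : P.V} (h : P.G.Adj v w) (h' : P.G.Adj v w')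
    (he : ff P i v w = ff P i v w') : w = w' := by
  by_cases hwx : w = P.x
  · by_cases hwx' : w' = P.x
    · rw [hwx, hwx']
    · by_cases hwy' : w' = P.y
      · exact absurd (hwy' ▸ h') (fun h2 => no_common hn (hwx ▸ h) h2)
      · rw [ff_h i v w' hwx' hwy'] at he
        exfalso
        unfold ff at he
        rw [dif_pos hwx] at he
        split at he <;> cases he
  · by_cases hwy : w = P.y
    · by_cases hwy' : w' = P.y
      · rw [hwy, hwy']
      · by_cases hwx' : w' = P.x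
        · exact absurd (hwx' ▸ h') (fun h2 => no_common hn h2 (hwy ▸ h))
        · rw [ff_h i v w' hwx' hwy'] at he
          exfalso
          unfold ff at he
          rw [dif_neg hwx, dif_pos hwy] at he
          split at he <;> cases he
    · rw [ff_h i v w hwx hwy] at he
      by_cases hwx' : w' = P.x
      · exfalso
        unfold ff at he
        rw [dif_pos hwx'] at he
        split at he <;> cases he
      · by_cases hwy' : w' = P.y
        · exfalso
          unfold ff at he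
          rw [dif_neg hwx', dif_pos hwy'] at he
          split at he <;> cases he
        · rw [ff_h i v w' hwx' hwy'] at he
          simpa using he

/-- the triple of neighbours of `h i v` -/
theorem nbr_h (hc : Cubic P.G) (hn : NoShort P.G) {i : Fin 3} {v : P.V} {hx hy} {w1 w2 w3 : P.V}
    (h : Nbr3 P.G v w1 w2 w3) :
    Nbr3 (comp (three P)) (.h i v hx hy) (ff P i v w1) (ff P i v w2) (ff P i v w3) := by
  obtain ⟨h1, h2, h3, h4⟩ := h
  have a1 : P.G.Adj v w1 := (h4 w1).2 (Or.inl rfl)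
  have a2 : P.G.Adj v w2 := (h4 w2).2 (Or.inr (Or.inl rfl))
  have a3 : P.G.Adj v w3 := (h4 w3).2 (Or.inr (Or.inr rfl))
  refine ⟨fun h => h1 (ff_inj hn a1 a2 h), fun h => h2 (ff_inj hn a1 a3 h),
    fun h => h3 (ff_inj hn a2 a3 h), fun z => ?_⟩
  rw [adj_ff hc]
  constructor
  · rintro ⟨w, hw, rfl⟩
    rcases (h4 w).1 hw with rfl | rfl | rfl <;> simp
  · rintro (rfl | rfl | rfl)
    · exact ⟨_, a1, rfl⟩
    · exact ⟨_, a2, rfl⟩
    · exact ⟨_, a3, rfl⟩

/-- the triple comes from a triple of the piece -/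
theorem nbr_h' (hc : Cubic P.G) {i : Fin 3} {v : P.V} {hx hy}
    {z1 z2 z3 : CV (three P)} (h : Nbr3 (comp (three P)) (.h i v hx hy) z1 z2 z3) :
    ∃ w1 w2 w3, Nbr3 P.G v w1 w2 w3 ∧ z1 = ff P i v w1 ∧ z2 = ff P i v w2 ∧ z3 = ff P i v w3 := by
  obtain ⟨h1, h2, h3, h4⟩ := h
  obtain ⟨w1, a1, rfl⟩ := (adj_ff hc z1).1 ((h4 z1).2 (Or.inl rfl))
  obtain ⟨w2, a2, rfl⟩ := (adj_ff hc z2).1 ((h4 z2).2 (Or.inr (Or.inl rfl)))
  obtain ⟨w3, a3, rfl⟩ := (adj_ff hc z3).1 ((h4 z3).2 (Or.inr (Or.inr rfl)))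
  refine ⟨w1, w2, w3, nbr3_mk hc ?_ ?_ ?_ a1 a2 a3, rfl, rfl, rfl⟩
  · rintro rfl; exact h1 rfl
  · rintro rfl; exact h2 rfl
  · rintro rfl; exact h3 rfl

theorem fin_ne : ∀ i : Fin 3, i + 1 ≠ i - 1 := by decide

theorem nbr_c (i : Fin 3) : Nbr3 (comp (three P)) (.c i) (.a i) (.b i) .u := by
  refine ⟨by simp, by simp, by simp, fun z => ?_⟩
  cases z with
  | h j w hx hy => simp [adj_ch]
  | a j => simp [adj_ca, eq_comm]
  | b j => simp [adj_cb, eq_comm]
  | c j => simp [adj_cc]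
  | u => simp [adj_cu]

theorem nbr_a (i : Fin 3) : Nbr3 (comp (three P)) (.a i) (.c i)
    (.h (i + 1) P.x0 P.hx0.ne' P.hx0y) (.h (i - 1) P.y0 P.hy0x P.hy0.ne') := by
  refine ⟨by simp, by simp, ?_, fun z => ?_⟩
  · intro h
    have : i + 1 = i - 1 := by
      injection h
    exact fin_ne i this
  · cases z with
    | h j w hx hy => simp [adj_ah]
    | a j => simp [adj_aa]
    | b j => simp [adj_ab]
    | c j => simp [adj_ac, eq_comm]
    | u => simp [adj_au]

theorem nbr_b (i : Fin 3) : Nbr3 (comp (three P)) (.b i) (.c i)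
    (.h (i + 1) P.x1 P.hx1.ne' P.hx1y) (.h (i - 1) P.y1 P.hy1x P.hy1.ne') := by
  refine ⟨by simp, by simp, ?_, fun z => ?_⟩
  · intro h
    have : i + 1 = i - 1 := by
      injection h
    exact fin_ne i this
  · cases z with
    | h j w hx hy => simp [adj_bh]
    | a j => simp [adj_ba]
    | b j => simp [adj_bb]
    | c j => simp [adj_bc, eq_comm]
    | u => simp [adj_bu]

theorem nbr_u : Nbr3 (comp (three P)) .u (.c 0) (.c 1) (.c 2) := by
  refine ⟨by simp, by simp, by simp, fun z => ?_⟩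
  cases z with
  | h j w hx hy => simp [adj_uh]
  | a j => simp [adj_ua]
  | b j => simp [adj_ub]
  | c j =>
    simp [adj_uc]
    revert j
    decide
  | u => simp [adj_uu]

end Pool.Agent.Q222.SN
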